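import Mathlib

/-! Polynomial growth: doubling scales and nets. -/

set_option autoImplicit false

namespace Pool.Agent.TH18.AC

open Classical Pointwise

/-- all finite subsets have polynomial growth -/
def LocPoly (N : Type) [Group N] : Prop :=
  ∀ Φ : Finset N, ∃ C q : ℕ, ∀ n, (Φ ^ n).card ≤ C * (n + 1) ^ q

theorem doubling (V : ℕ → ℕ) (C q : ℕ) (hV : ∀ n, V n ≤ C * (n + 1) ^ q) (hpos : ∀ n, 1 ≤ V n)
    (T0 : ℕ) : ∃ T, T0 ≤ T ∧ V (4 * T) ≤ 4 ^ (q + 1) * V T := by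
  by_contra hcon
  push Not at hcon
  have h1 : ∀ j : ℕ, 4 ^ ((q + 1) * j) ≤ V (4 ^ j * T0) := by
    intro j
    induction j with
    | zero => simpa using hpos _
    | succ j ih =>
      have h2 := hcon (4 ^ j * T0) (Nat.le_mul_of_pos_left _ (by positivity))
      have h3 : 4 ^ (j + 1) * T0 = 4 * (4 ^ j * T0) := by ring
      rw [h3]
      refine le_trans ?_ h2.le
      rw [Nat.mul_succ, pow_add, mul_comm]
      exact Nat.mul_le_mul_left _ ih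
  have h4 : ∀ j : ℕ, 4 ^ j ≤ C * (T0 + 1) ^ q := by
    intro j
    have h5 := (h1 j).trans (hV _)
    have h6 : (4 ^ j * T0 + 1) ^ q ≤ (4 ^ j * (T0 + 1)) ^ q := by
      refine Nat.pow_le_pow_left ?_ _
      have : 1 ≤ 4 ^ j := Nat.one_le_pow _ _ (by norm_num)
      nlinarith
    have h7 : 4 ^ ((q + 1) * j) ≤ C * (T0 + 1) ^ q * 4 ^ (q * j) := by
      refine h5.trans ((Nat.mul_le_mul_left C h6).trans (le_of_eq ?_))
      rw [mul_pow, ← pow_mul, mul_comm j q]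
      ring
    have h8 : 4 ^ ((q + 1) * j) = 4 ^ j * 4 ^ (q * j) := by
      rw [← pow_add]
      congr 1
      ring
    rw [h8] at h7
    exact Nat.le_of_mul_le_mul_right h7 (by positivity)
  have h9 := h4 (C * (T0 + 1) ^ q)
  have h10 : C * (T0 + 1) ^ q < 4 ^ (C * (T0 + 1) ^ q) := Nat.lt_pow_self (by norm_num)
  omega

section
variable {N : Type} [Group N] {Φ : Finset N}

theorem mul_mem_pow {a b : N} {m n : ℕ} (ha : a ∈ Φ ^ m) (hb : b ∈ Φ ^ n) :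
    a * b ∈ Φ ^ (m + n) := by
  rw [pow_add]
  exact Finset.mul_mem_mul ha hb

theorem inv_mem_pow (hs : ∀ a ∈ Φ, a⁻¹ ∈ Φ) {a : N} {n : ℕ} (ha : a ∈ Φ ^ n) : a⁻¹ ∈ Φ ^ n := by
  have h1 : Φ⁻¹ ⊆ Φ := by
    intro b hb
    have := hs _ (Finset.mem_inv'.1 hb)
    rwa [inv_inv] at this
  have h2 : a⁻¹ ∈ (Φ ^ n)⁻¹ := Finset.inv_mem_inv ha
  rw [← inv_pow] at h2
  exact Finset.pow_subset_pow_left h1 h2

theorem pow_mono' (h1 : (1 : N) ∈ Φ) {a b : ℕ} (hab : a ≤ b) {x : N} (hx : x ∈ Φ ^ a) :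
    x ∈ Φ ^ b := Finset.pow_subset_pow_right h1 hab hx

theorem exists_net (h1 : (1 : N) ∈ Φ) (hs : ∀ a ∈ Φ, a⁻¹ ∈ Φ) (T : ℕ) :
    ∃ Z : Set N, (∀ z ∈ Z, ∀ z' ∈ Z, z ≠ z' → z⁻¹ * z' ∉ Φ ^ (2 * T)) ∧
      ∀ x : N, ∃ z ∈ Z, z⁻¹ * x ∈ Φ ^ (2 * T) := by
  obtain ⟨Z, hZ⟩ := zorn_subset {s : Set N | ∀ z ∈ s, ∀ z' ∈ s, z ≠ z' → z⁻¹ * z' ∉ Φ ^ (2 * T)}
    (by
      intro c hc hch
      refine ⟨⋃₀ c, ?_, fun s hs => Set.subset_sUnion_of_mem hs⟩
      rintro z ⟨s, hsc, hzs⟩ z' ⟨s', hsc', hzs'⟩ hne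
      rcases hch.total hsc hsc' with h | h
      · exact hc hsc' z (h hzs) z' hzs' hne
      · exact hc hsc z hzs z' (h hzs') hne)
  refine ⟨Z, hZ.prop, ?_⟩
  intro x
  by_contra hcon
  push Not at hcon
  have hins : (insert x Z : Set N) ∈
      {s : Set N | ∀ z ∈ s, ∀ z' ∈ s, z ≠ z' → z⁻¹ * z' ∉ Φ ^ (2 * T)} := by
    intro z hz z' hz' hne
    rcases hz with rfl | hz
    · rcases hz' with rfl | hz'
      · exact absurd rfl hne
      · intro h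
        refine hcon z' hz' ?_
        have := inv_mem_pow hs h
        rwa [mul_inv_rev, inv_inv] at this
    · rcases hz' with rfl | hz'
      · exact hcon z hz
      · exact hZ.prop z hz z' hz' hne
  have hx : x ∈ Z := hZ.le_of_ge hins (Set.subset_insert x Z) (Set.mem_insert x Z)
  refine hcon x hx ?_
  rw [inv_mul_cancel]
  have : (1 : N) ∈ Φ ^ 0 := by rw [pow_zero]; exact Finset.mem_one.2 rfl
  exact pow_mono' h1 (Nat.zero_le _) this

/-- the net points near `x` -/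
noncomputable def NP (Φ : Finset N) (Z : Set N) (T : ℕ) (x : N) : Finset N :=
  ((Φ ^ (3 * T)).image (fun g => x * g)).filter (fun z => z ∈ Z)

theorem mem_NP (hs : ∀ a ∈ Φ, a⁻¹ ∈ Φ) {Z : Set N} {T : ℕ} {x z : N} :
    z ∈ NP Φ Z T x ↔ z ∈ Z ∧ z⁻¹ * x ∈ Φ ^ (3 * T) := by
  rw [NP, Finset.mem_filter, Finset.mem_image]
  constructor
  · rintro ⟨⟨g, hg, rfl⟩, hz⟩
    refine ⟨hz, ?_⟩
    have : (x * g)⁻¹ * x = g⁻¹ := by group
    rw [this]
    exact inv_mem_pow hs hg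
  · rintro ⟨hz, h⟩
    refine ⟨⟨x⁻¹ * z, ?_, by group⟩, hz⟩
    have := inv_mem_pow hs h
    rwa [mul_inv_rev, inv_inv] at this

theorem card_NP (h1 : (1 : N) ∈ Φ) (hs : ∀ a ∈ Φ, a⁻¹ ∈ Φ) {Z : Set N} {T : ℕ}
    (hZ : ∀ z ∈ Z, ∀ z' ∈ Z, z ≠ z' → z⁻¹ * z' ∉ Φ ^ (2 * T)) (K : ℕ)
    (hK : (Φ ^ (4 * T)).card ≤ K * (Φ ^ T).card) (x : N) : (NP Φ Z T x).card ≤ K := by
  have hpos : 0 < (Φ ^ T).card := by
    refine Finset.card_pos.2 ⟨1, ?_⟩
    have : (1 : N) ∈ Φ ^ 0 := by rw [pow_zero]; exact Finset.mem_one.2 rfl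
    exact pow_mono' h1 (Nat.zero_le _) this
  have hdis : ∀ z ∈ NP Φ Z T x, ∀ z' ∈ NP Φ Z T x, z ≠ z' →
      Disjoint ((Φ ^ T).image (fun g => z * g)) ((Φ ^ T).image (fun g => z' * g)) := by
    intro z hz z' hz' hne
    rw [Finset.disjoint_left]
    intro y hy hy'
    obtain ⟨g, hg, rfl⟩ := Finset.mem_image.1 hy
    obtain ⟨g', hg', h⟩ := Finset.mem_image.1 hy'
    refine hZ z ((mem_NP hs).1 hz).1 z' ((mem_NP hs).1 hz').1 hne ?_
    have h2 : z⁻¹ * z' = g * g'⁻¹ := by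
      have h3 : z' * g' = z * g := h
      have h4 : z' = z * g * g'⁻¹ := by rw [← h3]; group
      rw [h4]; group
    rw [h2, two_mul]
    exact mul_mem_pow hg (inv_mem_pow hs hg')
  have hsub : (NP Φ Z T x).biUnion (fun z => (Φ ^ T).image (fun g => z * g)) ⊆
      (Φ ^ (4 * T)).image (fun g => x * g) := by
    intro y hy
    obtain ⟨z, hz, hy⟩ := Finset.mem_biUnion.1 hy
    obtain ⟨g, hg, rfl⟩ := Finset.mem_image.1 hy
    refine Finset.mem_image.2 ⟨x⁻¹ * z * g, ?_, by group⟩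
    have h5 : x⁻¹ * z ∈ Φ ^ (3 * T) := by
      have := inv_mem_pow hs ((mem_NP hs).1 hz).2
      rwa [mul_inv_rev, inv_inv] at this
    have h6 : 4 * T = 3 * T + T := by ring
    rw [h6]
    exact mul_mem_pow h5 hg
  have h7 := Finset.card_le_card hsub
  rw [Finset.card_biUnion (fun z hz z' hz' hne => hdis z hz z' hz' hne)] at h7
  have h8 : ∀ z ∈ NP Φ Z T x, ((Φ ^ T).image (fun g => z * g)).card = (Φ ^ T).card := fun z _ =>
    Finset.card_image_of_injective _ (mul_right_injective z)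
  rw [Finset.sum_congr rfl h8, Finset.sum_const, smul_eq_mul] at h7
  have h9 := h7.trans (Finset.card_image_le.trans hK)
  exact Nat.le_of_mul_le_mul_right h9 hpos

/-- the radii for which `g` is on the shell -/
noncomputable def bad (Φ : Finset N) (T : ℕ) (g : N) : Finset (Fin T) :=
  Finset.univ.filter (fun r : Fin T => g ∈ Φ ^ (2 * T + r + 1) ∧ g ∉ Φ ^ (2 * T + r - 1))

theorem card_bad (h1 : (1 : N) ∈ Φ) (T : ℕ) (g : N) : (bad Φ T g).card ≤ 2 := by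
  by_contra hcon
  push Not at hcon
  obtain ⟨a, ha, b, hb, c, hc, hab, hac, hbc⟩ := Finset.two_lt_card.1 hcon
  have key : ∀ r ∈ bad Φ T g, ∀ r' ∈ bad Φ T g, (r' : ℕ) < (r : ℕ) + 2 := by
    intro r hr r' hr'
    by_contra h
    push Not at h
    have h2 := (Finset.mem_filter.1 hr).2.1
    have h3 := (Finset.mem_filter.1 hr').2.2
    exact h3 (pow_mono' h1 (by omega) h2)
  have h1 := key a ha b hb
  have h2 := key b hb a ha
  have h3 := key a ha c hc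
  have h4 := key c hc a ha
  have h5 := key b hb c hc
  have h6 := key c hc b hb
  have h7 : (a : ℕ) ≠ b := fun h => hab (Fin.ext h)
  have h8 : (a : ℕ) ≠ c := fun h => hac (Fin.ext h)
  have h9 : (b : ℕ) ≠ c := fun h => hbc (Fin.ext h)
  omega

end

/-- choice of the scale -/
theorem exists_scale (A B q : ℕ) : ∃ T0 : ℕ, 1 ≤ T0 ∧ ∀ T : ℕ, T0 ≤ T →
    4 * ((A : ℝ) / T) ^ (q + 1) * ((B * (3 * T + 1) ^ q + 1 : ℕ) : ℝ) ≤ 1 := by
  refine ⟨4 * A ^ (q + 1) * ((B + 1) * 4 ^ q) + 1, Nat.succ_le_succ (Nat.zero_le _), ?_⟩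
  intro T hT
  have hT1 : 1 ≤ T := le_trans (Nat.succ_le_succ (Nat.zero_le _)) hT
  have hTr : (0 : ℝ) < T := by exact_mod_cast hT1
  have h1 : B * (3 * T + 1) ^ q + 1 ≤ (B + 1) * 4 ^ q * T ^ q := by
    have h2 : (3 * T + 1) ^ q ≤ (4 * T) ^ q := Nat.pow_le_pow_left (by omega) _
    have h3 : 1 ≤ 4 ^ q * T ^ q := by
      rw [← mul_pow]
      exact Nat.one_le_pow _ _ (by omega)
    rw [mul_pow] at h2
    calc B * (3 * T + 1) ^ q + 1 ≤ B * (4 ^ q * T ^ q) + 4 ^ q * T ^ q :=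
          Nat.add_le_add (Nat.mul_le_mul_left _ h2) h3
      _ = (B + 1) * 4 ^ q * T ^ q := by ring
  have h4 : ((B * (3 * T + 1) ^ q + 1 : ℕ) : ℝ) ≤ (B + 1) * 4 ^ q * (T : ℝ) ^ q := by
    have : ((B * (3 * T + 1) ^ q + 1 : ℕ) : ℝ) ≤ (((B + 1) * 4 ^ q * T ^ q : ℕ) : ℝ) := by
      exact_mod_cast h1
    refine this.trans (le_of_eq ?_)
    push_cast
    ring
  have h5 : (4 * (A : ℝ) ^ (q + 1) * ((B + 1) * 4 ^ q)) ≤ T := by
    have : ((4 * A ^ (q + 1) * ((B + 1) * 4 ^ q) : ℕ) : ℝ) ≤ (T : ℝ) := by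
      exact_mod_cast (Nat.le_succ _).trans hT
    refine le_trans (le_of_eq ?_) this
    push_cast
    ring
  calc 4 * ((A : ℝ) / T) ^ (q + 1) * ((B * (3 * T + 1) ^ q + 1 : ℕ) : ℝ)
      ≤ 4 * ((A : ℝ) / T) ^ (q + 1) * ((B + 1) * 4 ^ q * (T : ℝ) ^ q) :=
        mul_le_mul_of_nonneg_left h4 (by positivity)
    _ = (4 * (A : ℝ) ^ (q + 1) * ((B + 1) * 4 ^ q)) / T := by
        rw [div_pow, pow_succ (T : ℝ) q]
        field_simp
    _ ≤ 1 := by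
        rw [div_le_one hTr]
        exact h5

end Pool.Agent.TH18.AC
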