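import Mathlib
import Pool.Agent.Helper635.LLL

/-! A local lemma for families of random shells: few shells meet near every point. -/

set_option autoImplicit false

namespace Pool.Agent.TH18.AC

open Classical Pool.Agent.Helper635.LLL

/-- the shells of `x` that are hit -/
noncomputable def hits {X V : Type} {T : ℕ} (P : X → Finset V) (Bd : X → V → Finset (Fin T))
    (ω : V → Fin T) (x : X) : Finset V :=
  (P x).filter (fun v => ω v ∈ Bd x v)

theorem card_box {V : Type} [Fintype V] {T : ℕ} (hT : 0 < T) (A : Finset V)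
    (Bd : V → Finset (Fin T)) (b : ℕ) (hb : ∀ v, (Bd v).card ≤ b) :
    (cnt (fun ω : V → Fin T => ∀ v ∈ A, ω v ∈ Bd v) : ℝ) ≤
      ((b : ℝ) / T) ^ A.card * Fintype.card (V → Fin T) := by
  have hT' : (0 : ℝ) < T := by exact_mod_cast hT
  have h1 : ev (fun ω : V → Fin T => ∀ v ∈ A, ω v ∈ Bd v) ⊆
      Fintype.piFinset (fun v => if v ∈ A then Bd v else Finset.univ) := by
    intro ω hω
    rw [mem_ev] at hω
    rw [Fintype.mem_piFinset]
    intro v
    by_cases hv : v ∈ A
    · rw [if_pos hv]; exact hω v hv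
    · rw [if_neg hv]; exact Finset.mem_univ _
  have h2 : (cnt (fun ω : V → Fin T => ∀ v ∈ A, ω v ∈ Bd v) : ℝ) ≤
      ∏ v : V, ((if v ∈ A then Bd v else Finset.univ : Finset (Fin T)).card : ℝ) := by
    have h3 := Finset.card_le_card h1
    rw [Fintype.card_piFinset] at h3
    have h4 : ((ev (fun ω : V → Fin T => ∀ v ∈ A, ω v ∈ Bd v)).card : ℝ) ≤
        ((∏ v : V, (if v ∈ A then Bd v else Finset.univ : Finset (Fin T)).card : ℕ) : ℝ) := by
      exact_mod_cast h3
    rw [Nat.cast_prod] at h4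
    exact h4
  refine h2.trans ?_
  have h5 : (Fintype.card (V → Fin T) : ℝ) = ∏ _v : V, (T : ℝ) := by
    rw [Fintype.card_fun, Fintype.card_fin, Finset.prod_const, Finset.card_univ]
    push_cast
    rfl
  have h6 : ((b : ℝ) / T) ^ A.card = ∏ v : V, (if v ∈ A then (b : ℝ) / T else 1) := by
    rw [Finset.prod_ite_mem, Finset.univ_inter, Finset.prod_const]
  rw [h5, h6, ← Finset.prod_mul_distrib]
  refine Finset.prod_le_prod (fun v _ => by positivity) (fun v _ => ?_)
  by_cases hv : v ∈ A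
  · rw [if_pos hv, if_pos hv, div_mul_cancel₀ _ hT'.ne']
    exact_mod_cast hb v
  · rw [if_neg hv, if_neg hv, one_mul, Finset.card_univ, Fintype.card_fin]

theorem cnt_hits {X V : Type} [Fintype V] {T : ℕ} (hT : 0 < T) (P : X → Finset V)
    (Bd : X → V → Finset (Fin T)) (K b J : ℕ) (x : X) (hK : (P x).card ≤ K)
    (hb : ∀ v, (Bd x v).card ≤ b) :
    (cnt (fun ω : V → Fin T => J < (hits P Bd ω x).card) : ℝ) ≤
      ((K : ℝ) * b / T) ^ (J + 1) * Fintype.card (V → Fin T) := by
  have hT' : (0 : ℝ) < T := by exact_mod_cast hT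
  have h1 : ev (fun ω : V → Fin T => J < (hits P Bd ω x).card) ⊆
      ((P x).powersetCard (J + 1)).biUnion
        (fun A => ev (fun ω : V → Fin T => ∀ v ∈ A, ω v ∈ Bd x v)) := by
    intro ω hω
    rw [mem_ev] at hω
    obtain ⟨A, hA, hAc⟩ := Finset.exists_subset_card_eq (n := J + 1) hω
    rw [Finset.mem_biUnion]
    refine ⟨A, ?_, ?_⟩
    · rw [Finset.mem_powersetCard]
      exact ⟨hA.trans (Finset.filter_subset _ _), hAc⟩
    · rw [mem_ev]
      intro v hv
      exact (Finset.mem_filter.1 (hA hv)).2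
  have h2 : (cnt (fun ω : V → Fin T => J < (hits P Bd ω x).card) : ℝ) ≤
      ∑ A ∈ (P x).powersetCard (J + 1),
        (cnt (fun ω : V → Fin T => ∀ v ∈ A, ω v ∈ Bd x v) : ℝ) := by
    have h3 := (Finset.card_le_card h1).trans Finset.card_biUnion_le
    have h4 : ((ev (fun ω : V → Fin T => J < (hits P Bd ω x).card)).card : ℝ) ≤
      ((∑ A ∈ (P x).powersetCard (J + 1),
        (ev (fun ω : V → Fin T => ∀ v ∈ A, ω v ∈ Bd x v)).card : ℕ) : ℝ) := by
      exact_mod_cast h3
    rw [Nat.cast_sum] at h4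
    exact h4
  refine h2.trans ?_
  have h5 : ∀ A ∈ (P x).powersetCard (J + 1),
      (cnt (fun ω : V → Fin T => ∀ v ∈ A, ω v ∈ Bd x v) : ℝ) ≤
        ((b : ℝ) / T) ^ (J + 1) * Fintype.card (V → Fin T) := by
    intro A hA
    have h6 := card_box hT A (Bd x) b hb
    rw [(Finset.mem_powersetCard.1 hA).2] at h6
    exact h6
  refine (Finset.sum_le_sum h5).trans ?_
  rw [Finset.sum_const, Finset.card_powersetCard, nsmul_eq_mul]
  have h7 : (((P x).card.choose (J + 1) : ℕ) : ℝ) ≤ (K : ℝ) ^ (J + 1) := by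
    have h8 : (P x).card.choose (J + 1) ≤ (P x).card ^ (J + 1) := Nat.choose_le_pow _ _
    have h9 : (P x).card ^ (J + 1) ≤ K ^ (J + 1) := Nat.pow_le_pow_left hK _
    exact_mod_cast h8.trans h9
  have h10 : ((K : ℝ) * b / T) ^ (J + 1) = (K : ℝ) ^ (J + 1) * ((b : ℝ) / T) ^ (J + 1) := by
    rw [mul_div_assoc, mul_pow]
  rw [h10, mul_assoc]
  exact mul_le_mul_of_nonneg_right h7 (by positivity)

theorem lll_fin {X V : Type} [Fintype V] {T : ℕ} (hT : 0 < T) (P : X → Finset V)
    (Bd : X → V → Finset (Fin T)) (K b d J : ℕ) (I : Finset X) (hK : ∀ x, (P x).card ≤ K)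
    (hb : ∀ x v, (Bd x v).card ≤ b)
    (hd : ∀ (x : X) (I' : Finset X), (∀ y ∈ I', ∃ v, v ∈ P x ∧ v ∈ P y) → I'.card ≤ d)
    (hd1 : 1 ≤ d) (h4 : 4 * ((K : ℝ) * b / T) ^ (J + 1) * d ≤ 1) :
    ∃ ω : V → Fin T, ∀ x ∈ I, (hits P Bd ω x).card ≤ J := by
  have : Nonempty (Fin T) := ⟨⟨0, hT⟩⟩
  obtain ⟨ω', hω'⟩ := lll (T := V) (C := Fin T) I
    (fun x ω => J < (hits P Bd ω x).card) P (by
      intro x _ ω ω' hωω' h
      have : hits P Bd ω x = hits P Bd ω' x := by
        refine Finset.filter_congr ?_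
        intro v hv
        rw [hωω' v hv]
      show J < (hits P Bd ω' x).card
      rw [← this]
      exact h) (((K : ℝ) * b / T) ^ (J + 1)) d (by positivity)
    (fun x _ => cnt_hits hT P Bd K b J x (hK x) (fun v => hb x v))
    (by
      intro x _
      refine hd x _ ?_
      intro y hy
      rw [Finset.mem_filter] at hy
      by_contra hdis
      refine hy.2 ?_
      rw [Finset.disjoint_left]
      intro v hv hv'
      exact hdis ⟨v, hv, hv'⟩) h4 hd1
    Fintype.card_pos
  exact ⟨ω', fun x hx => not_lt.1 (hω' x hx)⟩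

theorem lll_inf {X V : Type} {T : ℕ} (hT : 0 < T) (P : X → Finset V)
    (Bd : X → V → Finset (Fin T)) (K b d J : ℕ) (hK : ∀ x, (P x).card ≤ K)
    (hb : ∀ x v, (Bd x v).card ≤ b)
    (hd : ∀ (x : X) (I' : Finset X), (∀ y ∈ I', ∃ v, v ∈ P x ∧ v ∈ P y) → I'.card ≤ d)
    (hd1 : 1 ≤ d) (h4 : 4 * ((K : ℝ) * b / T) ^ (J + 1) * d ≤ 1) :
    ∃ ω : V → Fin T, ∀ x, (hits P Bd ω x).card ≤ J := by
  have hcl : ∀ x, IsClosed {ω : V → Fin T | (hits P Bd ω x).card ≤ J} := by
    intro x
    have hcont : Continuous (fun ω : V → Fin T => fun v : ↥(P x) => ω v.1) :=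
      continuous_pi fun v => continuous_apply v.1
    have : {ω : V → Fin T | (hits P Bd ω x).card ≤ J} =
        (fun ω : V → Fin T => fun v : ↥(P x) => ω v.1) ⁻¹'
          {η : ↥(P x) → Fin T | ((P x).attach.filter (fun v => η v ∈ Bd x v.1)).card ≤ J} := by
      ext ω
      have : (hits P Bd ω x).card = ((P x).attach.filter (fun v => ω v.1 ∈ Bd x v.1)).card := by
        refine (Finset.card_bij (fun v _ => v.1) ?_ ?_ ?_).symm
        · intro v hv
          exact Finset.mem_filter.2 ⟨v.2, (Finset.mem_filter.1 hv).2⟩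
        · intro v _ w _ h
          exact Subtype.ext h
        · intro v hv
          obtain ⟨h1, h2⟩ := Finset.mem_filter.1 hv
          exact ⟨⟨v, h1⟩, Finset.mem_filter.2 ⟨Finset.mem_attach _ _, h2⟩, rfl⟩
      show (hits P Bd ω x).card ≤ J ↔ ((P x).attach.filter (fun v => ω v.1 ∈ Bd x v.1)).card ≤ J
      rw [this]
    rw [this]
    exact (isClosed_discrete _).preimage hcont
  have hne : ((Set.univ : Set (V → Fin T)) ∩
      ⋂ x, {ω : V → Fin T | (hits P Bd ω x).card ≤ J}).Nonempty := by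
    refine isCompact_univ.inter_iInter_nonempty _ hcl ?_
    intro I
    let W : Finset V := I.biUnion P
    let P' : X → Finset ↥W := fun x => W.attach.filter (fun v => v.1 ∈ P x)
    let Bd' : X → ↥W → Finset (Fin T) := fun x v => Bd x v.1
    have hP' : ∀ x, (P' x).card ≤ K := by
      intro x
      refine le_trans ?_ (hK x)
      refine Finset.card_le_card_of_injOn (fun v => v.1) ?_ ?_
      · intro v hv
        exact (Finset.mem_filter.1 hv).2
      · intro v _ w _ h
        exact Subtype.ext h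
    obtain ⟨ω', hω'⟩ := lll_fin hT P' Bd' K b d J I hP' (fun x v => hb x v.1) (by
        intro x I' hI'
        refine hd x I' ?_
        intro y hy
        obtain ⟨v, h2, h3⟩ := hI' y hy
        exact ⟨v.1, (Finset.mem_filter.1 h2).2, (Finset.mem_filter.1 h3).2⟩) hd1 h4
    let ω : V → Fin T := fun v => if h : v ∈ W then ω' ⟨v, h⟩ else ⟨0, hT⟩
    refine ⟨ω, Set.mem_univ _, ?_⟩
    rw [Set.mem_iInter₂]
    intro x hx
    have hsub : P x ⊆ W := Finset.subset_biUnion_of_mem P hx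
    show (hits P Bd ω x).card ≤ J
    refine le_trans ?_ (hω' x hx)
    have : hits P Bd ω x ⊆ (hits P' Bd' ω' x).image (fun v => v.1) := by
      intro v hv
      obtain ⟨h1, h2⟩ := Finset.mem_filter.1 hv
      have h3 := hsub h1
      have h4 : ω v = ω' ⟨v, h3⟩ := dif_pos h3
      rw [h4] at h2
      refine Finset.mem_image.2 ⟨⟨v, h3⟩, ?_, rfl⟩
      exact Finset.mem_filter.2 ⟨Finset.mem_filter.2 ⟨Finset.mem_attach _ _, h1⟩, h2⟩
    exact (Finset.card_le_card this).trans Finset.card_image_le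
  obtain ⟨ω, _, hω⟩ := hne
  exact ⟨ω, fun x => Set.mem_iInter.1 hω x⟩

end Pool.Agent.TH18.AC
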