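import Pool.Agent.TH18.AC.Lll

/-! Random shells of small multiplicity, and the colouring of the points on the shells. -/

set_option autoImplicit false

namespace Pool.Agent.TH18.AC

open Classical Pointwise

section
variable {G V : Type} [Group G] {T : ℕ}

/-- the shells met in the `b`-th neighbourhood of `x` -/
noncomputable def Mb (F : Finset G) (Pot : G → Finset V) (Bd : G → V → Finset (Fin T))
    (ω : V → Fin T) (b : ℕ) (x : G) : Finset V :=
  (F ^ b).biUnion (fun f => (Pot (x * f)).filter (fun v => ω v ∈ Bd (x * f) v))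

theorem mem_Mb {F : Finset G} {Pot : G → Finset V} {Bd : G → V → Finset (Fin T)}
    {ω : V → Fin T} {b : ℕ} {x : G} {v : V} : v ∈ Mb F Pot Bd ω b x ↔
      ∃ f ∈ F ^ b, v ∈ Pot (x * f) ∧ ω v ∈ Bd (x * f) v := by
  simp only [Mb, Finset.mem_biUnion, Finset.mem_filter]

theorem pow_mono {F : Finset G} (h1 : (1 : G) ∈ F) {a b : ℕ} (hab : a ≤ b) : F ^ a ⊆ F ^ b :=
  Finset.pow_subset_pow_right h1 hab

theorem Mb_mono {F : Finset G} (h1 : (1 : G) ∈ F) {Pot : G → Finset V}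
    {Bd : G → V → Finset (Fin T)} {ω : V → Fin T} {a b : ℕ} (hab : a ≤ b) (x : G) :
    Mb F Pot Bd ω a x ⊆ Mb F Pot Bd ω b x := by
  intro v hv
  obtain ⟨f, hf, h⟩ := mem_Mb.1 hv
  exact mem_Mb.2 ⟨f, pow_mono h1 hab hf, h⟩

theorem Mb_step {F : Finset G} {Pot : G → Finset V}
    {Bd : G → V → Finset (Fin T)} {ω : V → Fin T} {b : ℕ} {x y : G} (h : x⁻¹ * y ∈ F) :
    Mb F Pot Bd ω b y ⊆ Mb F Pot Bd ω (b + 1) x := by
  intro v hv
  obtain ⟨f, hf, h2⟩ := mem_Mb.1 hv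
  refine mem_Mb.2 ⟨x⁻¹ * y * f, ?_, ?_⟩
  · rw [pow_succ']
    exact Finset.mul_mem_mul h hf
  · have : x * (x⁻¹ * y * f) = y * f := by group
    rw [this]
    exact h2

theorem shell_cover (F : Finset G) (h1 : (1 : G) ∈ F) (Pot : G → Finset V) (hT : 0 < T)
    (Bd : G → V → Finset (Fin T)) (K D J : ℕ) (hK : ∀ x, (Pot x).card ≤ K)
    (hBd : ∀ x v, (Bd x v).card ≤ 2)
    (hD : ∀ (v : V) (A : Finset G), (∀ y ∈ A, v ∈ Pot y) → A.card ≤ D)
    (L0 : Finset G) (hL : ∀ v y y', v ∈ Pot y → v ∈ Pot y' → y⁻¹ * y' ∈ L0)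
    (h4 : 4 * ((((F ^ J).card * K : ℕ) : ℝ) * (((F ^ J).card * 2 : ℕ) : ℝ) / T) ^ (J + 1) *
      (((F ^ J).card * K * ((F ^ J).card * D) + 1 : ℕ) : ℝ) ≤ 1) :
    ∃ (ω : V → Fin T) (c : G → ℕ) (κ : G → Finset V) (L : Finset G),
      (∀ x, (∃ v ∈ Pot x, ω v ∈ Bd x v) → c x < (J + 1) * (J + 1)) ∧
      (∀ x y, (∃ v ∈ Pot x, ω v ∈ Bd x v) → (∃ v ∈ Pot y, ω v ∈ Bd y v) → c x = c y →
        x⁻¹ * y ∈ F → κ x = κ y) ∧
      (∀ x y, (∃ v ∈ Pot x, ω v ∈ Bd x v) → (∃ v ∈ Pot y, ω v ∈ Bd y v) → c x = c y →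
        κ x = κ y → x⁻¹ * y ∈ L) := by
  -- the local lemma
  let PJ : G → Finset V := fun x => (F ^ J).biUnion (fun f => Pot (x * f))
  let BJ : G → V → Finset (Fin T) := fun x v =>
    (F ^ J).biUnion (fun f => Bd (x * f) v)
  have hPJ : ∀ x, (PJ x).card ≤ (F ^ J).card * K := fun x =>
    Finset.card_biUnion_le_card_mul _ _ _ (fun f _ => hK _)
  have hBJ : ∀ x v, (BJ x v).card ≤ (F ^ J).card * 2 := fun x v =>
    Finset.card_biUnion_le_card_mul _ _ _ (fun f _ => hBd _ _)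
  obtain ⟨ω, hω⟩ := lll_inf hT PJ BJ ((F ^ J).card * K) ((F ^ J).card * 2)
    ((F ^ J).card * K * ((F ^ J).card * D) + 1) J hPJ hBJ (by
      intro x I hI
      have hsub : I ⊆ (PJ x).biUnion (fun v => (F ^ J).biUnion (fun f =>
          I.filter (fun y => v ∈ Pot (y * f)))) := by
        intro y hy
        obtain ⟨v, hv, hv'⟩ := hI y hy
        obtain ⟨f, hf, hvf⟩ := Finset.mem_biUnion.1 hv'
        exact Finset.mem_biUnion.2 ⟨v, hv, Finset.mem_biUnion.2 ⟨f, hf,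
          Finset.mem_filter.2 ⟨hy, hvf⟩⟩⟩
      refine (Finset.card_le_card hsub).trans ?_
      refine le_trans ?_ (Nat.le_succ _)
      refine (Finset.card_biUnion_le_card_mul _ _ ((F ^ J).card * D) (fun v _ => ?_)).trans ?_
      · refine Finset.card_biUnion_le_card_mul _ _ _ (fun f _ => ?_)
        have : (I.filter (fun y => v ∈ Pot (y * f))).card =
            ((I.filter (fun y => v ∈ Pot (y * f))).image (fun y => y * f)).card := by
          rw [Finset.card_image_of_injective _ (mul_left_injective f)]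
        rw [this]
        refine hD v _ ?_
        intro y hy
        obtain ⟨z, hz, rfl⟩ := Finset.mem_image.1 hy
        exact (Finset.mem_filter.1 hz).2
      · exact Nat.mul_le_mul_right _ (hPJ x))
    (Nat.succ_le_succ (Nat.zero_le _)) h4
  have hMJ : ∀ x, (Mb F Pot Bd ω J x).card ≤ J := by
    intro x
    refine le_trans (Finset.card_le_card ?_) (hω x)
    intro v hv
    obtain ⟨f, hf, h2, h3⟩ := mem_Mb.1 hv
    exact Finset.mem_filter.2 ⟨Finset.mem_biUnion.2 ⟨f, hf, h2⟩,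
      Finset.mem_biUnion.2 ⟨f, hf, h3⟩⟩
  have hM0 : ∀ x, (∃ v ∈ Pot x, ω v ∈ Bd x v) → 1 ≤ (Mb F Pot Bd ω 0 x).card := by
    rintro x ⟨v, h2, h3⟩
    refine Finset.card_pos.2 ⟨v, mem_Mb.2 ⟨1, ?_, ?_⟩⟩
    · rw [pow_zero]; exact Finset.mem_one.2 rfl
    · rw [mul_one]; exact ⟨h2, h3⟩
  -- stable radius
  have hst : ∀ x, (∃ v ∈ Pot x, ω v ∈ Bd x v) →
      ∃ b, b < J ∧ Mb F Pot Bd ω b x = Mb F Pot Bd ω (b + 1) x := by
    intro x hx
    by_contra hcon
    push Not at hcon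
    have hgrow : ∀ b, b ≤ J → b + 1 ≤ (Mb F Pot Bd ω b x).card := by
      intro b
      induction b with
      | zero => intro _; exact hM0 x hx
      | succ b ih =>
        intro hb
        have h5 := ih (by omega)
        have h6 := hcon b (by omega)
        have h7 : (Mb F Pot Bd ω b x).card < (Mb F Pot Bd ω (b + 1) x).card :=
          Finset.card_lt_card (Finset.ssubset_iff_subset_ne.2 ⟨Mb_mono h1 (Nat.le_succ b) x, h6⟩)
        omega
    have h8 := hgrow J le_rfl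
    have h9 := hMJ x
    omega
  let bb : G → ℕ := fun x => if h : ∃ b, b < J ∧ Mb F Pot Bd ω b x = Mb F Pot Bd ω (b + 1) x then
    Classical.choose h else 0
  have hbb : ∀ x, (∃ v ∈ Pot x, ω v ∈ Bd x v) →
      bb x < J ∧ Mb F Pot Bd ω (bb x) x = Mb F Pot Bd ω (bb x + 1) x := by
    intro x hx
    have h := hst x hx
    have h2 : bb x = Classical.choose h := dif_pos h
    rw [h2]
    exact Classical.choose_spec h
  have hcard : ∀ x, (∃ v ∈ Pot x, ω v ∈ Bd x v) →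
      (Mb F Pot Bd ω (bb x) x).card < J + 1 := by
    intro x hx
    have h5 := Finset.card_le_card (Mb_mono (F := F) h1 (Pot := Pot) (Bd := Bd) (ω := ω)
      (hbb x hx).1.le x)
    have h6 := hMJ x
    omega
  refine ⟨ω, fun x => bb x * (J + 1) + (Mb F Pot Bd ω (bb x) x).card,
    fun x => Mb F Pot Bd ω (bb x) x, (F ^ J) * L0 * (F ^ J)⁻¹, ?_, ?_, ?_⟩
  · intro x hx
    have h5 := (hbb x hx).1
    have h6 := hcard x hx
    show bb x * (J + 1) + (Mb F Pot Bd ω (bb x) x).card < (J + 1) * (J + 1)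
    nlinarith
  · intro x y hx hy hc hxy
    have h5 := hcard x hx
    have h6 := hcard y hy
    have h7 : bb x = bb y ∧ (Mb F Pot Bd ω (bb x) x).card = (Mb F Pot Bd ω (bb y) y).card := by
      have h8 : bb x * (J + 1) + (Mb F Pot Bd ω (bb x) x).card =
          bb y * (J + 1) + (Mb F Pot Bd ω (bb y) y).card := hc
      have h9 : bb x = bb y := by
        have h10 : (bb x * (J + 1) + (Mb F Pot Bd ω (bb x) x).card) / (J + 1) =
            (bb y * (J + 1) + (Mb F Pot Bd ω (bb y) y).card) / (J + 1) := by rw [h8]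
        rw [Nat.add_comm, Nat.add_mul_div_right _ _ (Nat.succ_pos J), Nat.div_eq_of_lt h5,
          Nat.add_comm (bb y * (J + 1)), Nat.add_mul_div_right _ _ (Nat.succ_pos J),
          Nat.div_eq_of_lt h6] at h10
        omega
      refine ⟨h9, ?_⟩
      rw [h9] at h8 ⊢
      omega
    show Mb F Pot Bd ω (bb x) x = Mb F Pot Bd ω (bb y) y
    have h11 : Mb F Pot Bd ω (bb y) y ⊆ Mb F Pot Bd ω (bb x) x := by
      rw [(hbb x hx).2, ← h7.1]
      exact Mb_step hxy
    exact (Finset.eq_of_subset_of_card_le h11 h7.2.le).symm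
  · intro x y hx hy _ hκ
    have h5 : Mb F Pot Bd ω (bb x) x = Mb F Pot Bd ω (bb y) y := hκ
    obtain ⟨v, hv⟩ : (Mb F Pot Bd ω (bb x) x).Nonempty := by
      rw [← Finset.card_pos]
      exact (hM0 x hx).trans (Finset.card_le_card (Mb_mono h1 (Nat.zero_le _) x))
    have hv' := hv
    rw [h5] at hv'
    obtain ⟨f, hf, h6, -⟩ := mem_Mb.1 hv
    obtain ⟨f', hf', h7, -⟩ := mem_Mb.1 hv'
    have h8 := hL v _ _ h6 h7
    have h9 : x⁻¹ * y = f * ((x * f)⁻¹ * (y * f')) * f'⁻¹ := by group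
    rw [h9]
    exact Finset.mul_mem_mul (Finset.mul_mem_mul (pow_mono h1 (hbb x hx).1.le hf) h8)
      (Finset.inv_mem_inv (pow_mono h1 (hbb y hy).1.le hf'))

end

end Pool.Agent.TH18.AC
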